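import Pool.Agent.Rand.Exist4

/-!
# Opposite orderings of the two randomness deficiencies

For every constant `c` there are Martin-Löf random sequences `ω₁`, `ω₂` such that
`d_E ω₁ ≥ d_E ω₂ + c` and `d_P ω₂ ≥ d_P ω₁ + c`, for every universal expectation-bounded test
and every universal probability-bounded test. (Such universal tests exist.)
-/

open MeasureTheory
open scoped ENNReal NNReal

namespace Pool.Agent.Results.MP_2976e9_lc.OppositeOrder

open Pool.Agent.Rand

lemma deficiency_add_le {t : Cantor → ℝ≥0∞} {ω ω' : Cantor} {N : ℕ} {c : ℝ} (hc : c ≤ N)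
    (h0 : t ω ≠ 0) (h1 : t ω ≠ ∞) (h0' : t ω' ≠ 0) (h1' : t ω' ≠ ∞)
    (h : 2 ^ N * t ω ≤ t ω') : deficiency t ω + (c : EReal) ≤ deficiency t ω' := by
  unfold deficiency
  rw [ENNReal.log_pos_real h0 h1, ENNReal.log_pos_real h0' h1', ← EReal.coe_div, ← EReal.coe_div,
    ← EReal.coe_add, EReal.coe_le_coe_iff]
  have hx : 0 < (t ω).toReal := ENNReal.toReal_pos h0 h1
  have hy : 0 < (t ω').toReal := ENNReal.toReal_pos h0' h1'
  have hle : 2 ^ N * (t ω).toReal ≤ (t ω').toReal := by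
    have h2 := (ENNReal.toReal_le_toReal (ENNReal.mul_ne_top (by simp) h1) h1').2 h
    rw [ENNReal.toReal_mul, ENNReal.toReal_pow] at h2
    simpa using h2
  have hlog : N * Real.log 2 + Real.log (t ω).toReal ≤ Real.log (t ω').toReal := by
    have h3 := Real.log_le_log (by positivity) hle
    rwa [Real.log_mul (by positivity) hx.ne', Real.log_pow] at h3
  have hl2 : 0 < Real.log 2 := Real.log_pos (by norm_num)
  rw [div_add' _ _ _ hl2.ne', div_le_div_iff_of_pos_right hl2]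
  nlinarith

/-- the two deficiencies order pairs of random sequences oppositely, with any margin -/
theorem opposite (tE tP : Cantor → ℝ≥0∞)
    (hE : IsUniversal IsExpectationTest tE) (hP : IsUniversal IsProbabilityTest tP) (c : ℝ) :
    ∃ ω₁ ω₂ : Cantor, MartinLofRandom ω₁ ∧ MartinLofRandom ω₂ ∧
      (∀ ω ∈ ({ω₁, ω₂} : Set Cantor), 0 < tE ω ∧ tE ω < ∞ ∧ 0 < tP ω ∧ tP ω < ∞) ∧
      deficiency tE ω₁ ≥ deficiency tE ω₂ + (c : EReal) ∧
      deficiency tP ω₂ ≥ deficiency tP ω₁ + (c : EReal) := by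
  obtain ⟨N, hN⟩ := exists_nat_ge c
  obtain ⟨ω₁, ω₂, hE1, hE2, hP1, hP2, h1, h2⟩ := opposite_mul hE hP N
  have pE : ∀ ω, tE ω ≠ 0 := univ_pos hE one_isExpectationTest (fun _ => le_rfl)
  have pP : ∀ ω, tP ω ≠ 0 := univ_pos hP lead_isProbabilityTest (fun ω => by
    have := le_lead (ω := ω) (n := 0) (fun i hi => by omega)
    simpa using this)
  refine ⟨ω₁, ω₂, random_of_finite hE hE1, random_of_finite hE hE2, ?_, ?_, ?_⟩
  · rintro ω (rfl | rfl)
    · exact ⟨pos_iff_ne_zero.2 (pE _), lt_top_iff_ne_top.2 hE1, pos_iff_ne_zero.2 (pP _),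
        lt_top_iff_ne_top.2 hP1⟩
    · exact ⟨pos_iff_ne_zero.2 (pE _), lt_top_iff_ne_top.2 hE2, pos_iff_ne_zero.2 (pP _),
        lt_top_iff_ne_top.2 hP2⟩
  · exact deficiency_add_le hN (pE _) hE2 (pE _) hE1 h1
  · exact deficiency_add_le hN (pP _) hP1 (pP _) hP2 h2

/-- Universal expectation-bounded and probability-bounded tests exist, and for every choice of
them and every `c` there are Martin-Löf random `ω₁`, `ω₂` with `d_E ω₁ ≥ d_E ω₂ + c` and
`d_P ω₂ ≥ d_P ω₁ + c`. -/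
theorem result :
    (∃ tE : Cantor → ℝ≥0∞, IsUniversal IsExpectationTest tE) ∧
    (∃ tP : Cantor → ℝ≥0∞, IsUniversal IsProbabilityTest tP) ∧
    ∀ tE tP : Cantor → ℝ≥0∞, IsUniversal IsExpectationTest tE →
      IsUniversal IsProbabilityTest tP → ∀ c : ℝ,
      ∃ ω₁ ω₂ : Cantor, MartinLofRandom ω₁ ∧ MartinLofRandom ω₂ ∧
        (∀ ω ∈ ({ω₁, ω₂} : Set Cantor), 0 < tE ω ∧ tE ω < ∞ ∧ 0 < tP ω ∧ tP ω < ∞) ∧
        deficiency tE ω₁ ≥ deficiency tE ω₂ + (c : EReal) ∧
        deficiency tP ω₂ ≥ deficiency tP ω₁ + (c : EReal) :=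
  ⟨exists_universal_expectation, exists_universal_probability, opposite⟩

end Pool.Agent.Results.MP_2976e9_lc.OppositeOrder
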